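import Mathlib
import Pool.Agent.TH53.HR10

/-!
# Lehmer's problem for algebraic integers with few residues modulo a prime number

Fix a prime number `p` and a real number `c`, and put `μ = exp (1 / (4 p ^ ⌈40 + 20 c⌉)) > 1`.
Let `K` be a number field of degree `n` and let `α` be an algebraic integer of `K`, not `0` or a root
of unity, such that `K = ℚ(α ^ (p ^ s))` for all `s`. Suppose that the minimal polynomial of `α` has
at most `c n / log (2 n)` distinct zeros modulo `p`; this holds if the sum of the residue degrees of
the prime ideals of `K` above `p` is at most `c n / log (2 n)`, hence (as `∑ e f = n`) if all the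
ramification indices above `p` are at least `log (2 n) / c`. Then `M(α) ≥ μ`.

The condition on the powers of `α` cannot be dropped without proving Lehmer's conjecture: for
every integer polynomial `g` of degree `d` the polynomial `f = g (X ^ (p ^ j))` has `M(f) = M(g)`,
degree `p ^ j * d`, and at most `d` distinct zeros modulo `p`.

Method: the conjugates of `α` are raised to the powers `p ^ (s + a)`, `a < k`, and the determinant
of the `k n` by `k n` Vandermonde matrix of these numbers is bounded from above by Hadamard's
inequality and from below by its divisibility by a high power of `p`. For the latter one takes an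
integer polynomial `F` of small degree whose reduction modulo `p` is divisible by the irreducible
factors of high multiplicity of the minimal polynomial of `α`, with suitable exponents; by the
Frobenius congruence `F` takes values divisible by `p` at the powers of the conjugates (in a
valuation ring of `ℂ` above `p`).

`polynomials` is the same theorem in terms of irreducible integer polynomials, monic or not.
-/

set_option autoImplicit false

universe u

open Polynomial NumberField Module

namespace Pool.Agent.Results.MP_7ab245_nt.HighRamification

/-- The number of distinct zeros of `f` modulo `p` in the algebraic closure of the field with `p`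
elements. -/
noncomputable def distinctZerosMod (p : ℕ) [Fact p.Prime] (f : ℤ[X]) : ℕ :=
  ((f.map (Int.castRingHom (ZMod p))).rootSet (AlgebraicClosure (ZMod p))).ncard

/-- The sum of the residue degrees of the prime ideals of the ring of integers of `K` above `p`. -/
noncomputable def residueDegreeSum (p : ℕ) (K : Type u) [Field K] [NumberField K] : ℕ :=
  ∑ P ∈ IsDedekindDomain.primesOverFinset (Ideal.span {(p : ℤ)}) (𝓞 K), P.inertiaDeg ℤ

theorem polynomials (p : ℕ) [Fact p.Prime] (c : ℝ) (f : ℤ[X]) (hf : Irreducible f)
    (hM : 1 < (f.map (Int.castRingHom ℂ)).mahlerMeasure)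
    (hnd : ∀ z w : ℂ, aeval z f = 0 → aeval w f = 0 → ∀ s : ℕ, z ^ p ^ s = w ^ p ^ s → z = w)
    (hR : (distinctZerosMod p f : ℝ) * Real.log (2 * f.natDegree) ≤ c * f.natDegree) :
    Real.exp (1 / (4 * (p : ℝ) ^ ⌈40 + 20 * c⌉₊)) ≤
      (f.map (Int.castRingHom ℂ)).mahlerMeasure :=
  Pool.Agent.TH53.HR.distinct_zeros p f hf hM hnd c hR

/-- **Lehmer's conjecture for algebraic integers of degree `n` whose conjugates have at most
`c n / log (2 n)` distinct residues above a fixed prime number `p`**, for instance for number fields
in which the sum of the residue degrees above `p` is at most `c n / log (2 n)`. -/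
theorem result (p : ℕ) [Fact p.Prime] (c : ℝ) (K : Type u) [Field K] [NumberField K] (α : 𝓞 K)
    (h0 : α ≠ 0) (hroot : ∀ m : ℕ, 0 < m → α ^ m ≠ 1)
    (hgen : ∀ s : ℕ, IntermediateField.adjoin ℚ {(α : K) ^ p ^ s} = ⊤)
    (h : (distinctZerosMod p (minpoly ℤ (α : K)) : ℝ) * Real.log (2 * finrank ℚ K) ≤
          c * finrank ℚ K ∨
        (residueDegreeSum p K : ℝ) * Real.log (2 * finrank ℚ K) ≤ c * finrank ℚ K) :
    Real.exp (1 / (4 * (p : ℝ) ^ ⌈40 + 20 * c⌉₊)) ≤
      ((minpoly ℤ (α : K)).map (Int.castRingHom ℂ)).mahlerMeasure := by
  rcases h with h | h
  · exact Pool.Agent.TH53.HR.number_field_zeros p α hgen h0 hroot c h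
  · exact Pool.Agent.TH53.HR.number_field p α hgen h0 hroot c h

end Pool.Agent.Results.MP_7ab245_nt.HighRamification
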