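import Mathlib
import Pool.Agent.H389R3.LP4
import Pool.Agent.TH869.LS.F3

/-!
# Lehmer's problem for toral automorphisms with many fixed or periodic points

Let `f` be an irreducible integer polynomial of degree `n` with `M(f) > 1`, no two distinct zeros of
which have a root of unity as quotient, let `q ≥ 1` and let `P` be the absolute value of the
resultant of `f` and `X ^ q - 1` (for `q = 1` this is `|f(1)|`; for monic `f` with `f(0) = ± 1` it is
the number of points of period `q` of the automorphism of the `n`-dimensional torus given by a matrix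
with characteristic polynomial `f`, and `log M(f)` is the entropy). Put `L = log P`. Then

* `M(f) ≥ min (2, exp (h / (1728000 q)))`, where
  `h = min (L, L ^ 2 / (n log (2 n)), L ^ 4 / (n ^ 2 log (2 n) ^ 3))`;
* in particular `M(f) ≥ exp (1 / (2400000 q))` as soon as `P ≥ exp (√n * (log (2 n)) ^ (3 / 4))`.

So Lehmer's inequality holds for these polynomials if `|f(1)| ≥ exp (√n * (log 2n) ^ (3/4))`. The
squarefree products of cyclotomic polynomials `f` of degree `n` reach `|f(1)| = exp (c √(n log n))`.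

Method: `1 - α` divides `1 - α ^ m`, so the logarithmic potential at `1` of the conjugates of
`α, α ^ 2, …, α ^ k` is at least `k L`; it is bounded by the energy of this set, which is bounded in
terms of the Mahler measure. One takes `k` of order `n log (2 n) ^ 2 / L ^ 2`.
-/

set_option autoImplicit false

open Polynomial

namespace Pool.Agent.Results.MP_7ab245_nt.ManyFixedPoints

/-- The absolute value of the resultant of `f` and `X ^ q - 1`: the product
`|a| ^ q ∏ |z ^ q - 1|` over the complex zeros `z` of `f` (with multiplicity), where `a` is the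
leading coefficient of `f`. -/
noncomputable def periodicCount (f : ℤ[X]) (q : ℕ) : ℝ :=
  |(f.leadingCoeff : ℝ)| ^ q *
    ((f.map (Int.castRingHom ℂ)).roots.map fun z => ‖z ^ q - 1‖).prod

lemma eq_perCount (f : ℤ[X]) (q : ℕ) : Pool.Agent.TH869.LS.perCount f q = periodicCount f q := rfl

open Pool.Agent.TH869.LS Pool.Agent.H389R3.LR Pool.Agent.H389R3.LP in
lemma general (f : ℤ[X]) (hf : Irreducible f)
    (hM : 1 < (f.map (Int.castRingHom ℂ)).mahlerMeasure)
    (hnd : ∀ z w : ℂ, aeval z f = 0 → aeval w f = 0 → z ≠ w → ∀ m : ℕ, 0 < m → z ^ m ≠ w ^ m)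
    (q : ℕ) (hq : 1 ≤ q) :
    min 2 (Real.exp (min (Real.log (perCount f q))
      (min (Real.log (perCount f q) ^ 2 / (f.natDegree * Real.log (2 * f.natDegree)))
      (Real.log (perCount f q) ^ 4 / ((f.natDegree : ℝ) ^ 2 * Real.log (2 * f.natDegree) ^ 3))) /
        (1728000 * q))) ≤ (f.map (Int.castRingHom ℂ)).mahlerMeasure := by
  rcases le_or_gt 2 (f.map (Int.castRingHom ℂ)).mahlerMeasure with h2 | h2
  · exact (min_le_left _ _).trans h2
  refine (min_le_right _ _).trans ?_
  have hq0 : (0:ℝ) < q := by exact_mod_cast hq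
  have key : ∀ g : ℤ[X], Irreducible g → g.Monic →
      1 < (g.map (Int.castRingHom ℂ)).mahlerMeasure → Nondeg g →
      Real.exp (min (Real.log (perCount g q))
        (min (Real.log (perCount g q) ^ 2 / (g.natDegree * Real.log (2 * g.natDegree)))
        (Real.log (perCount g q) ^ 4 / ((g.natDegree : ℝ) ^ 2 * Real.log (2 * g.natDegree) ^ 3))) /
          (1728000 * q)) ≤ (g.map (Int.castRingHom ℂ)).mahlerMeasure := by
    intro g hg hgm hgM hgnd
    have h := irr_F g hg hgm hgM hgnd hq
    have hM0 : 0 < (g.map (Int.castRingHom ℂ)).mahlerMeasure := by linarith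
    rw [← Real.le_log_iff_exp_le hM0, div_le_iff₀ (by positivity)]
    linarith
  obtain ⟨hlc, -⟩ := units_of_lt_two f hf hM h2
  rcases (abs_eq (zero_le_one' ℤ)).mp hlc with h3 | h3
  · exact key f hf h3 hM hnd
  · have hMneg := MM_neg' f
    have hpr : perCount (-f) q = perCount f q := by
      unfold perCount
      rw [Polynomial.map_neg, Polynomial.roots_neg, leadingCoeff_neg, Int.cast_neg, abs_neg]
    have hnd' : Nondeg (-f) := by
      intro z w hz hw hne m hm
      rw [map_neg, neg_eq_zero] at hz hw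
      exact hnd z w hz hw hne m hm
    have := key (-f)
      ((Associated.irreducible_iff (Associated.neg_left (Associated.refl f))).mpr hf)
      (by rw [Monic, leadingCoeff_neg, h3]; rfl) (by rw [hMneg]; exact hM) hnd'
    rw [hMneg, hpr, natDegree_neg] at this
    exact this

/-- **Lehmer's conjecture for the irreducible polynomials with `|f(1)|` at least
`exp (√n * (log 2n) ^ (3/4))`**, and the same for points of period `q`. -/
theorem result (f : ℤ[X]) (hf : Irreducible f)
    (hM : 1 < (f.map (Int.castRingHom ℂ)).mahlerMeasure)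
    (hnd : ∀ z w : ℂ, aeval z f = 0 → aeval w f = 0 → z ≠ w → ∀ m : ℕ, 0 < m → z ^ m ≠ w ^ m)
    (q : ℕ) (hq : 1 ≤ q) :
    min 2 (Real.exp (min (Real.log (periodicCount f q))
      (min (Real.log (periodicCount f q) ^ 2 / (f.natDegree * Real.log (2 * f.natDegree)))
      (Real.log (periodicCount f q) ^ 4 /
        ((f.natDegree : ℝ) ^ 2 * Real.log (2 * f.natDegree) ^ 3))) /
        (1728000 * q))) ≤ (f.map (Int.castRingHom ℂ)).mahlerMeasure ∧
    (Real.exp (Real.sqrt f.natDegree * Real.log (2 * f.natDegree) ^ (3 / 4 : ℝ)) ≤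
        periodicCount f q →
      Real.exp (1 / (2400000 * q)) ≤ (f.map (Int.castRingHom ℂ)).mahlerMeasure) := by
  have hgen := general f hf hM hnd q hq
  rw [eq_perCount] at hgen
  refine ⟨hgen, fun hP => ?_⟩
  have hq0 : (0:ℝ) < q := by exact_mod_cast hq
  have hq1 : (1:ℝ) ≤ q := by exact_mod_cast hq
  have htwo : Real.exp (1 / (2400000 * (q:ℝ))) ≤ 2 := by
    rw [← Real.le_log_iff_exp_le two_pos]
    have h4 := Real.log_two_gt_d9
    have h5 : 1 / (2400000 * (q:ℝ)) ≤ 1 / 2 := by
      apply one_div_le_one_div_of_le two_pos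
      nlinarith
    linarith
  rcases Nat.eq_zero_or_pos f.natDegree with hdeg | hdeg
  · -- constants
    have hC := eq_C_of_natDegree_eq_zero hdeg
    have h6 : (f.map (Int.castRingHom ℂ)).mahlerMeasure = |((f.coeff 0 : ℤ) : ℝ)| := by
      rw [hC, Polynomial.map_C, mahlerMeasure_const, Polynomial.coeff_C_zero, eq_intCast,
        Complex.norm_intCast]
    rw [h6] at hM ⊢
    have h7 : (1:ℤ) < |f.coeff 0| := by exact_mod_cast hM
    have h8 : (2:ℤ) ≤ |f.coeff 0| := h7
    have h9 : (2:ℝ) ≤ |((f.coeff 0 : ℤ) : ℝ)| := by exact_mod_cast h8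
    exact htwo.trans h9
  refine le_trans (le_min htwo ?_) hgen
  apply Real.exp_le_exp.mpr
  set n : ℝ := (f.natDegree : ℝ) with hn
  have hn1 : 1 ≤ n := by rw [hn]; exact_mod_cast hdeg
  have hn0 : 0 < n := by linarith
  set l : ℝ := Real.log (2 * n) with hl
  have hl2 : (0.6931471803:ℝ) < l := by
    have h4 := Real.log_two_gt_d9
    have h5 : Real.log 2 ≤ l := Real.log_le_log two_pos (by linarith)
    linarith
  have hl0 : 0 < l := by linarith
  set u : ℝ := l ^ (3 / 4 : ℝ) with hu
  have hu0 : 0 < u := Real.rpow_pos_of_pos hl0 _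
  have hu4 : u ^ 4 = l ^ 3 := by
    rw [hu, ← Real.rpow_natCast, ← Real.rpow_mul hl0.le]
    norm_num
  have hu2 : 0.75 ≤ u := by
    by_contra hcon
    push Not at hcon
    have h1 : u ^ 4 ≤ 0.75 ^ 4 := pow_le_pow_left₀ hu0.le hcon.le 4
    have h2 : (0.6931471803:ℝ) ^ 3 ≤ l ^ 3 := pow_le_pow_left₀ (by norm_num) hl2.le 3
    rw [hu4] at h1
    norm_num at h1 h2
    linarith
  set P : ℝ := periodicCount f q with hPdef
  set L : ℝ := Real.log P with hL
  have hLge : Real.sqrt n * u ≤ L := by
    have h1 := Real.log_le_log (Real.exp_pos _) hP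
    rwa [Real.log_exp] at h1
  have hs1 : 1 ≤ Real.sqrt n := Real.one_le_sqrt.mpr hn1
  have hs2 : Real.sqrt n ^ 2 = n := Real.sq_sqrt hn0.le
  have hsu : 0 < Real.sqrt n * u := by positivity
  have hL0 : 0 < L := lt_of_lt_of_le hsu hLge
  have hL2 : n * u ^ 2 ≤ L ^ 2 := by
    have := pow_le_pow_left₀ hsu.le hLge 2
    rwa [mul_pow, hs2] at this
  have hL4 : n ^ 2 * l ^ 3 ≤ L ^ 4 := by
    have h1 := pow_le_pow_left₀ (by positivity) hL2 2
    have h2 : (n * u ^ 2) ^ 2 = n ^ 2 * l ^ 3 := by rw [mul_pow, ← pow_mul, hu4]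
    have h3 : (L ^ 2) ^ 2 = L ^ 4 := by ring
    rwa [h2, h3] at h1
  -- `u ^ 2 = l ^ (3/2) ≥ 0.75 l`
  have hul : 0.75 * l ≤ u ^ 2 := by
    have h1 : (0.75 * l) ^ 2 ≤ (u ^ 2) ^ 2 := by
      have h2 : (u ^ 2) ^ 2 = l ^ 3 := by rw [← pow_mul, hu4]
      rw [h2]
      have h3 : 0 < l ^ 2 := by positivity
      nlinarith
    exact le_of_sq_le_sq h1 (by positivity)
  have hmin : 0.75 ≤ min L (min (L ^ 2 / (n * l)) (L ^ 4 / (n ^ 2 * l ^ 3))) := by
    apply le_min
    · nlinarith
    · apply le_min
      · rw [le_div_iff₀ (by positivity)]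
        have h1 : n * (0.75 * l) ≤ n * u ^ 2 := mul_le_mul_of_nonneg_left hul hn0.le
        linarith
      · rw [le_div_iff₀ (by positivity)]
        have : 0 ≤ n ^ 2 * l ^ 3 := by positivity
        linarith
  rw [div_le_div_iff₀ (by positivity) (by positivity), one_mul]
  nlinarith

end Pool.Agent.Results.MP_7ab245_nt.ManyFixedPoints
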