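import Mathlib
import Pool.Agent.H389R3.LP4
import Pool.Agent.TH869.LS.S3

/-!
# Lehmer's problem for irreducible polynomials with many zeros in a few thin sectors

Let `f` be an irreducible integer polynomial of degree `n` with `M(f) > 1`, let `q ≥ 1`, `θ ≥ 0` and
let `X` be the number of the complex zeros `z` of `f` for which `z ^ q` has argument at most `θ` in
absolute value (the zeros in the `q` sectors of half-angle `θ / q` around the `q`-th roots of unity).
If the sectors are thin, namely `16 q n θ ≤ X` and `32768 q ^ 3 n ^ 2 log (2 n) θ ≤ X ^ 3`, then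

* `M(f) ≥ min (2, exp (h / (1064960 q ^ 5)))` with `h = min (X ^ 2 / n) (X ^ 4 / (n ^ 2 log (2 n)))`;
* in particular `M(f) ≥ exp (1 / (1300000 q ^ 5))` as soon as `X ^ 2 ≥ n √(log (2 n))`.

So Lehmer's inequality holds for the irreducible polynomials of degree `n` that have at least
`√n * (log 2n) ^ (1/4)` zeros in sectors of angle of order `1 / (√n * (log 2n) ^ (1/4))` around the
directions of the `q`-th roots of unity; none of these zeros has to be real or to have a real power.

Method: the energy inequality for the conjugates of `α, α ^ 2, …, α ^ k` with `k` of order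
`n log (2 n) / X ^ 2`; the powers of the zeros in the sectors stay in a sector which is so thin that
the Poisson kernel at height `X / n` does not distinguish its points from the positive axis.
-/

set_option autoImplicit false

open Polynomial

namespace Pool.Agent.Results.MP_7ab245_nt.ThinSectors

open Classical in
/-- the number of the complex zeros `z` of `f`, counted with multiplicity, for which the argument of
`z ^ q` is at most `θ` in absolute value -/
noncomputable def sectorZeros (f : ℤ[X]) (q : ℕ) (θ : ℝ) : ℕ :=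
  Multiset.card ((f.map (Int.castRingHom ℂ)).roots.filter fun z => |Complex.arg (z ^ q)| ≤ θ)

lemma eq_secRoots (f : ℤ[X]) (q : ℕ) (θ : ℝ) :
    Pool.Agent.TH869.LS.secRoots f q θ = sectorZeros f q θ := by
  unfold Pool.Agent.TH869.LS.secRoots sectorZeros
  congr!

open Pool.Agent.TH869.LS Pool.Agent.H389R3.LR Pool.Agent.H389R3.LP in
lemma general (f : ℤ[X]) (hf : Irreducible f)
    (hM : 1 < (f.map (Int.castRingHom ℂ)).mahlerMeasure) (q : ℕ) (hq : 1 ≤ q) (θ : ℝ)
    (hθ0 : 0 ≤ θ) (hθ1 : 16 * q * f.natDegree * θ ≤ secRoots f q θ)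
    (hθ2 : 32768 * (q : ℝ) ^ 3 * (f.natDegree : ℝ) ^ 2 * Real.log (2 * f.natDegree) * θ ≤
      (secRoots f q θ : ℝ) ^ 3) :
    min 2 (Real.exp (min ((secRoots f q θ : ℝ) ^ 2 / f.natDegree)
      ((secRoots f q θ : ℝ) ^ 4 / ((f.natDegree : ℝ) ^ 2 * Real.log (2 * f.natDegree))) /
        (1064960 * (q : ℝ) ^ 5))) ≤ (f.map (Int.castRingHom ℂ)).mahlerMeasure := by
  rcases le_or_gt 2 (f.map (Int.castRingHom ℂ)).mahlerMeasure with h2 | h2
  · exact (min_le_left _ _).trans h2
  refine (min_le_right _ _).trans ?_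
  have hq0 : (0:ℝ) < q := by exact_mod_cast hq
  have key : ∀ g : ℤ[X], Irreducible g → g.Monic →
      1 < (g.map (Int.castRingHom ℂ)).mahlerMeasure →
      16 * q * g.natDegree * θ ≤ secRoots g q θ →
      32768 * (q : ℝ) ^ 3 * (g.natDegree : ℝ) ^ 2 * Real.log (2 * g.natDegree) * θ ≤
        (secRoots g q θ : ℝ) ^ 3 →
      Real.exp (min ((secRoots g q θ : ℝ) ^ 2 / g.natDegree)
        ((secRoots g q θ : ℝ) ^ 4 / ((g.natDegree : ℝ) ^ 2 * Real.log (2 * g.natDegree))) /
          (1064960 * (q : ℝ) ^ 5)) ≤ (g.map (Int.castRingHom ℂ)).mahlerMeasure := by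
    intro g hg hgm hgM h3 h4
    have h := irr_sector g hg hgm hgM hq hθ0 h3 h4
    have hM0 : 0 < (g.map (Int.castRingHom ℂ)).mahlerMeasure := by linarith
    rw [← Real.le_log_iff_exp_le hM0, div_le_iff₀ (by positivity)]
    linarith
  obtain ⟨hlc, -⟩ := units_of_lt_two f hf hM h2
  rcases (abs_eq (zero_le_one' ℤ)).mp hlc with h3 | h3
  · exact key f hf h3 hM hθ1 hθ2
  · have hMneg := MM_neg' f
    have hpr : secRoots (-f) q θ = secRoots f q θ := by
      unfold secRoots
      rw [Polynomial.map_neg, Polynomial.roots_neg]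
    have := key (-f)
      ((Associated.irreducible_iff (Associated.neg_left (Associated.refl f))).mpr hf)
      (by rw [Monic, leadingCoeff_neg, h3]; rfl) (by rw [hMneg]; exact hM)
      (by rw [hpr, natDegree_neg]; exact hθ1) (by rw [hpr, natDegree_neg]; exact hθ2)
    rw [hMneg, hpr, natDegree_neg] at this
    exact this

/-- **Lehmer's conjecture for the irreducible polynomials with at least `√n (log 2n) ^ (1/4)` zeros
in `q` thin sectors around the `q`-th roots of unity.** -/
theorem result (f : ℤ[X]) (hf : Irreducible f)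
    (hM : 1 < (f.map (Int.castRingHom ℂ)).mahlerMeasure) (q : ℕ) (hq : 1 ≤ q) (θ : ℝ)
    (hθ0 : 0 ≤ θ) (hθ1 : 16 * q * f.natDegree * θ ≤ sectorZeros f q θ)
    (hθ2 : 32768 * (q : ℝ) ^ 3 * (f.natDegree : ℝ) ^ 2 * Real.log (2 * f.natDegree) * θ ≤
      (sectorZeros f q θ : ℝ) ^ 3) :
    min 2 (Real.exp (min ((sectorZeros f q θ : ℝ) ^ 2 / f.natDegree)
      ((sectorZeros f q θ : ℝ) ^ 4 / ((f.natDegree : ℝ) ^ 2 * Real.log (2 * f.natDegree))) /
        (1064960 * (q : ℝ) ^ 5))) ≤ (f.map (Int.castRingHom ℂ)).mahlerMeasure ∧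
    ((f.natDegree : ℝ) * Real.sqrt (Real.log (2 * f.natDegree)) ≤ (sectorZeros f q θ : ℝ) ^ 2 →
      Real.exp (1 / (1300000 * (q : ℝ) ^ 5)) ≤ (f.map (Int.castRingHom ℂ)).mahlerMeasure) := by
  have hgen := general f hf hM q hq θ hθ0 (by rw [eq_secRoots]; exact hθ1)
    (by rw [eq_secRoots]; exact hθ2)
  rw [eq_secRoots] at hgen
  refine ⟨hgen, fun hX => ?_⟩
  have hq0 : (0:ℝ) < q := by exact_mod_cast hq
  have hq1 : (1:ℝ) ≤ q := by exact_mod_cast hq
  have hq5 : (1:ℝ) ≤ (q:ℝ) ^ 5 := one_le_pow₀ hq1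
  have htwo : Real.exp (1 / (1300000 * (q:ℝ) ^ 5)) ≤ 2 := by
    rw [← Real.le_log_iff_exp_le two_pos]
    have h4 := Real.log_two_gt_d9
    have h5 : 1 / (1300000 * (q:ℝ) ^ 5) ≤ 1 / 2 := by
      apply one_div_le_one_div_of_le two_pos
      nlinarith
    linarith
  rcases Nat.eq_zero_or_pos f.natDegree with hdeg | hdeg
  · -- constants
    have hC := eq_C_of_natDegree_eq_zero hdeg
    have h6 : (f.map (Int.castRingHom ℂ)).mahlerMeasure = |((f.coeff 0 : ℤ) : ℝ)| := by
      rw [hC, Polynomial.map_C, mahlerMeasure_const, Polynomial.coeff_C_zero, eq_intCast,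
        Complex.norm_intCast]
    rw [h6] at hM ⊢
    have h7 : (1:ℤ) < |f.coeff 0| := by exact_mod_cast hM
    have h8 : (2:ℤ) ≤ |f.coeff 0| := h7
    have h9 : (2:ℝ) ≤ |((f.coeff 0 : ℤ) : ℝ)| := by exact_mod_cast h8
    exact htwo.trans h9
  refine le_trans (le_min htwo ?_) hgen
  apply Real.exp_le_exp.mpr
  set n : ℝ := (f.natDegree : ℝ) with hn
  set Y : ℝ := (sectorZeros f q θ : ℝ) with hY
  have hn1 : 1 ≤ n := by rw [hn]; exact_mod_cast hdeg
  set l : ℝ := Real.log (2 * n) with hl
  set s : ℝ := Real.sqrt l with hs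
  have hl2 : (0.6931471803:ℝ) < l := by
    have h4 := Real.log_two_gt_d9
    have h5 : Real.log 2 ≤ l := Real.log_le_log two_pos (by linarith)
    linarith
  have hs2 : s ^ 2 = l := Real.sq_sqrt (by linarith)
  have hs0 : 0 ≤ s := Real.sqrt_nonneg _
  have hs8 : 0.83 ≤ s := by
    by_contra hcon
    push Not at hcon
    nlinarith
  have hn0 : 0 < n := by linarith
  have hmin : 0.83 ≤ min (Y ^ 2 / n) (Y ^ 4 / (n ^ 2 * l)) := by
    apply le_min
    · rw [le_div_iff₀ hn0]
      nlinarith
    · rw [le_div_iff₀ (by positivity)]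
      have h6 : (n * s) ^ 2 ≤ (Y ^ 2) ^ 2 := pow_le_pow_left₀ (by positivity) hX 2
      have h7 : (n * s) ^ 2 = n ^ 2 * l := by rw [mul_pow, hs2]
      have h8 : (Y ^ 2) ^ 2 = Y ^ 4 := by ring
      rw [h7, h8] at h6
      have h9 : 0 ≤ n ^ 2 * l := by positivity
      nlinarith
  rw [div_le_div_iff₀ (by positivity) (by positivity), one_mul]
  have h10 : 0 < (q:ℝ) ^ 5 := by positivity
  nlinarith

end Pool.Agent.Results.MP_7ab245_nt.ThinSectors
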